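import Pool.Agent.Helper59.SL.GoalsC

/-! # Project SL, Galois part, packet BC: independence and change of coefficients -/

namespace Pool.Agent.Helper55.SLG.BC

open Pool.Agent.Helper51.SigLeo Pool.Agent.Helper59.SL Module TensorProduct

universe u v w x

theorem thm : S_BC.{u, v, w, x} := by
  intro A B _ _ f M _ T m hm
  let _ : Algebra A B := f.toAlgebra
  -- the map attached to a linear form
  have key : ∀ (ψ : Dual A B), ∃ F : B ⊗[ℤ] M →+ A ⊗[ℤ] M,
      ∀ (c : B) (x : A ⊗[ℤ] M), F (c • cc f x) = ψ c • x := by
    intro ψ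
    refine ⟨(TensorProduct.map ψ.toAddMonoidHom.toIntLinearMap
      (LinearMap.id : M →ₗ[ℤ] M)).toAddMonoidHom, ?_⟩
    intro c x
    induction x using TensorProduct.induction_on with
    | zero => simp
    | tmul a y =>
      rw [cc_tmul, TensorProduct.smul_tmul', TensorProduct.smul_tmul', smul_eq_mul, smul_eq_mul]
      have h1 : ψ (c * f a) = ψ c * a := by
        have h2 : c * f a = a • c := by
          rw [Algebra.smul_def]
          exact mul_comm _ _
        rw [h2, map_smul, smul_eq_mul, mul_comm]
      rw [← h1]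
      rfl
    | add x y hx hy => rw [map_add, smul_add, map_add, hx, hy, smul_add]
  rw [linearIndependent_iff']
  intro s g hg i hi
  rw [← Module.forall_dual_apply_eq_zero_iff A]
  intro ψ
  obtain ⟨F, hF⟩ := key ψ
  have h1 : ∑ j ∈ s, ψ (g j) • m j = 0 := by
    have h2 := congrArg F hg
    rw [map_sum, map_zero] at h2
    rw [← h2]
    exact Finset.sum_congr rfl fun j _ => (hF _ _).symm
  exact linearIndependent_iff'.1 hm s (fun j => ψ (g j)) h1 i hi

end Pool.Agent.Helper55.SLG.BC
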